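import Pool.Agent.Helper8.SE.Sheet

/-! # SE row PHC: convexity of the penalty -/

set_option autoImplicit false

open Set Filter Topology Pool.Agent.Helper8.SE

namespace Pool.Agent.Helper49.SE

universe u

variable {X : Type u} [NormedAddCommGroup X] [NormedSpace ℝ X]

theorem pj_bdd (g : ℕ → StrongDual ℝ X) (j : ℕ) (f : StrongDual ℝ X) :
    ∀ r ∈ {r : ℝ | ∃ x : X, ‖x‖ ≤ 1 ∧ (∀ i ≤ j, g i x = 0) ∧ r = f x}, r ≤ ‖f‖ := by
  rintro r ⟨x, hx, -, rfl⟩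
  calc f x ≤ ‖f x‖ := le_abs_self _
    _ ≤ ‖f‖ * ‖x‖ := f.le_opNorm x
    _ ≤ ‖f‖ * 1 := mul_le_mul_of_nonneg_left hx (norm_nonneg _)
    _ = ‖f‖ := mul_one _

theorem pj_zero_mem (g : ℕ → StrongDual ℝ X) (j : ℕ) (f : StrongDual ℝ X) :
    (0 : ℝ) ∈ {r : ℝ | ∃ x : X, ‖x‖ ≤ 1 ∧ (∀ i ≤ j, g i x = 0) ∧ r = f x} :=
  ⟨0, by simp, fun i _ => by simp, by simp⟩

theorem pj_ge (g : ℕ → StrongDual ℝ X) (j : ℕ) (f : StrongDual ℝ X) (x : X) (hx : ‖x‖ ≤ 1)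
    (h : ∀ i ≤ j, g i x = 0) : f x ≤ pj g j f :=
  le_csSup ⟨‖f‖, pj_bdd g j f⟩ ⟨x, hx, h, rfl⟩

theorem pj_nonneg (g : ℕ → StrongDual ℝ X) (j : ℕ) (f : StrongDual ℝ X) : 0 ≤ pj g j f :=
  le_csSup ⟨‖f‖, pj_bdd g j f⟩ (pj_zero_mem g j f)

theorem pj_le (g : ℕ → StrongDual ℝ X) (j : ℕ) (f : StrongDual ℝ X) : pj g j f ≤ ‖f‖ :=
  csSup_le ⟨0, pj_zero_mem g j f⟩ (pj_bdd g j f)

theorem pj_half (g : ℕ → StrongDual ℝ X) (j : ℕ) (u f : StrongDual ℝ X) :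
    pj g j ((1 / 2 : ℝ) • (u + f)) ≤ (pj g j u + pj g j f) / 2 := by
  apply csSup_le ⟨0, pj_zero_mem g j _⟩
  rintro r ⟨x, hx, h, rfl⟩
  have h1 := pj_ge g j u x hx h
  have h2 := pj_ge g j f x hx h
  have h3 : ((1 / 2 : ℝ) • (u + f)) x = (u x + f x) / 2 := by
    simp
    ring
  rw [h3]
  linarith

theorem phi_summable (g : ℕ → StrongDual ℝ X) (x : ℕ → X) (hx : ∀ j, ‖x j‖ ≤ 1)
    (f : StrongDual ℝ X) :
    Summable fun j : ℕ => (1 / 2 : ℝ) ^ (j + 2) * ((f (x j)) ^ 2 + (pj g j f) ^ 2) := by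
  have hs : Summable fun j : ℕ => (1 / 2 : ℝ) ^ j * (2 * ‖f‖ ^ 2) :=
    (summable_geometric_of_lt_one (by norm_num) (by norm_num)).mul_right _
  refine Summable.of_nonneg_of_le (fun j => by positivity) (fun j => ?_) hs
  have h1 : |f (x j)| ≤ ‖f‖ := by
    calc |f (x j)| = ‖f (x j)‖ := rfl
      _ ≤ ‖f‖ * ‖x j‖ := f.le_opNorm _
      _ ≤ ‖f‖ * 1 := mul_le_mul_of_nonneg_left (hx j) (norm_nonneg _)
      _ = ‖f‖ := mul_one _
  have h2 : (f (x j)) ^ 2 ≤ ‖f‖ ^ 2 := by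
    rw [← sq_abs (f (x j))]
    exact pow_le_pow_left₀ (abs_nonneg _) h1 2
  have h3 : (pj g j f) ^ 2 ≤ ‖f‖ ^ 2 := pow_le_pow_left₀ (pj_nonneg g j f) (pj_le g j f) 2
  have h4 : (1 / 2 : ℝ) ^ (j + 2) ≤ (1 / 2 : ℝ) ^ j :=
    pow_le_pow_of_le_one (by norm_num) (by norm_num) (by omega)
  exact mul_le_mul h4 (by linarith) (by positivity) (by positivity)

theorem stPHC : ST_PHC.{u} := by
  intro X _ _ δ hδ g x hx y f₀ hf₀ hmax u hu j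
  set v : StrongDual ℝ X := (1 / 2 : ℝ) • (u + f₀) with hv
  have hvn : ‖v‖ ≤ 1 := by
    calc ‖v‖ = ‖(1 / 2 : ℝ)‖ * ‖u + f₀‖ := norm_smul _ _
      _ ≤ ‖(1 / 2 : ℝ)‖ * (1 + 1) :=
        mul_le_mul_of_nonneg_left ((norm_add_le _ _).trans (add_le_add hu hf₀)) (norm_nonneg _)
      _ = 1 := by norm_num
  have hvx : ∀ z : X, v z = (u z + f₀ z) / 2 := by
    intro z
    simp [hv]
    ring
  have hm := hmax v hvn
  set S : StrongDual ℝ X → ℕ → ℝ := fun f i =>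
    (1 / 2 : ℝ) ^ (i + 2) * ((f (x i)) ^ 2 + (pj g i f) ^ 2) with hS
  have hsum : ∀ f, Summable (S f) := fun f => phi_summable g x hx f
  have hphi : ∀ f, phi δ g x f = δ * ∑' i, S f i := fun f => rfl
  set E : ℝ := (1 / 2 : ℝ) ^ (j + 2) *
    ((u (x j) - f₀ (x j)) ^ 2 + (pj g j u - pj g j f₀) ^ 2) with hE
  have hterm : ∀ i, S v i + (1 / 2 : ℝ) ^ (i + 2) *
      ((u (x i) - f₀ (x i)) ^ 2 + (pj g i u - pj g i f₀) ^ 2) / 4 ≤ (S u i + S f₀ i) / 2 := by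
    intro i
    have h1 := pj_half g i u f₀
    rw [← hv] at h1
    have h2 : (pj g i v) ^ 2 ≤ ((pj g i u + pj g i f₀) / 2) ^ 2 :=
      pow_le_pow_left₀ (pj_nonneg g i v) h1 2
    have h3 : 0 ≤ (1 / 2 : ℝ) ^ (i + 2) := by positivity
    have h4 : (v (x i)) ^ 2 + (pj g i v) ^ 2 +
        ((u (x i) - f₀ (x i)) ^ 2 + (pj g i u - pj g i f₀) ^ 2) / 4 ≤
        (((u (x i)) ^ 2 + (pj g i u) ^ 2) + ((f₀ (x i)) ^ 2 + (pj g i f₀) ^ 2)) / 2 := by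
      rw [hvx]
      nlinarith
    have h5 := mul_le_mul_of_nonneg_left h4 h3
    simp only [hS]
    linarith
  have hterm2 : ∀ i, S v i + (if i = j then E / 4 else 0) ≤ (S u i + S f₀ i) / 2 := by
    intro i
    have h := hterm i
    by_cases hij : i = j
    · rw [if_pos hij, hij, hE]
      rw [hij] at h
      exact h
    · rw [if_neg hij]
      have h0 : 0 ≤ (1 / 2 : ℝ) ^ (i + 2) *
        ((u (x i) - f₀ (x i)) ^ 2 + (pj g i u - pj g i f₀) ^ 2) / 4 := by positivity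
      linarith
  have hG : HasSum (fun i => if i = j then E / 4 else 0) (E / 4) :=
    hasSum_ite_eq j (E / 4)
  have hle : (∑' i, S v i) + E / 4 ≤ ((∑' i, S u i) + ∑' i, S f₀ i) / 2 :=
    hasSum_le hterm2 ((hsum v).hasSum.add hG) (((hsum u).hasSum.add (hsum f₀).hasSum).div_const 2)
  have hle2 := mul_le_mul_of_nonneg_left hle hδ.le
  rw [hphi, hphi, hvx] at hm
  rw [hphi, hphi]
  have hEE : δ * (1 / 2 : ℝ) ^ (j + 2) *
      ((u (x j) - f₀ (x j)) ^ 2 + (pj g j u - pj g j f₀) ^ 2) = δ * E := by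
    rw [hE]
    ring
  rw [hEE]
  linarith

end Pool.Agent.Helper49.SE
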